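import Mathlib

/-!
# The numerical inequality of the level lemma for large primes
-/

set_option autoImplicit false

namespace Run7.h439.LT

open Filter

theorem log_bound (ε : ℝ) (hε : 0 < ε) :
    ∀ᶠ x : ℝ in atTop, 2 * (3 * Real.logb 2 x + 7) ≤ x ^ ε := by
  have h2 : (0 : ℝ) < Real.log 2 := Real.log_pos (by norm_num)
  have h1 := (isLittleO_log_rpow_atTop hε).def (c := Real.log 2 / 12) (by positivity)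
  have h3 : ∀ᶠ x : ℝ in atTop, (28 : ℝ) ≤ x ^ ε :=
    (tendsto_rpow_atTop hε).eventually_ge_atTop 28
  filter_upwards [h1, h3, eventually_ge_atTop (1 : ℝ)] with x hx1 hx3 hx
  have hx0 : (0 : ℝ) ≤ x := by linarith
  rw [Real.norm_of_nonneg (Real.log_nonneg hx), Real.norm_of_nonneg (Real.rpow_nonneg hx0 _)] at hx1
  have h5 : Real.logb 2 x ≤ x ^ ε / 12 := by
    rw [Real.logb, div_le_iff₀ h2]
    linarith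
  linarith

theorem asym (ε : ℝ) (hε : 0 < ε) (hε' : ε < 1 / 4) : ∃ p₀ : ℕ, ∀ p ≥ p₀,
    4 ^ ⌊(1 / 2 - 2 * ε) * Real.logb 2 p⌋₊ * (3 * ⌊(1 / 2 - 2 * ε) * Real.logb 2 p⌋₊ + 7) ^ 2 *
      (⌊(p : ℝ) ^ ε⌋₊ + 1) ^ 2 ≤ p := by
  have h1 := tendsto_natCast_atTop_atTop (R := ℝ) |>.eventually (log_bound ε hε)
  obtain ⟨p₀, hp₀⟩ := eventually_atTop.1 h1
  refine ⟨max p₀ 1, fun p hp => ?_⟩
  have h2 := hp₀ p ((le_max_left _ _).trans hp)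
  have hp1 : (1 : ℝ) ≤ p := by exact_mod_cast (le_max_right _ _).trans hp
  have hp0 : (0 : ℝ) < p := by linarith
  set L := ⌊(1 / 2 - 2 * ε) * Real.logb 2 p⌋₊ with hL
  have hlog : 0 ≤ Real.logb 2 (p : ℝ) := Real.logb_nonneg (by norm_num) hp1
  have hLle : (L : ℝ) ≤ (1 / 2 - 2 * ε) * Real.logb 2 p :=
    Nat.floor_le (mul_nonneg (by linarith) hlog)
  have hLle' : (L : ℝ) ≤ Real.logb 2 p := hLle.trans (by nlinarith)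
  have hk : ((⌊(p : ℝ) ^ ε⌋₊ : ℕ) : ℝ) ≤ (p : ℝ) ^ ε := Nat.floor_le (Real.rpow_nonneg hp0.le _)
  have hpe : (1 : ℝ) ≤ (p : ℝ) ^ ε := Real.one_le_rpow hp1 hε.le
  have h4L : (4 : ℝ) ^ L ≤ (p : ℝ) ^ (1 - 4 * ε) := by
    have h3 : (4 : ℝ) ^ L = (2 : ℝ) ^ (2 * (L : ℝ)) := by
      rw [show (2 * (L : ℝ)) = ((2 * L : ℕ) : ℝ) by push_cast; ring, Real.rpow_natCast, pow_mul]
      norm_num
    have h5 : (p : ℝ) ^ (1 - 4 * ε) = (2 : ℝ) ^ (Real.logb 2 p * (1 - 4 * ε)) := by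
      rw [Real.rpow_mul (by norm_num), Real.rpow_logb (by norm_num) (by norm_num) hp0]
    rw [h3, h5]
    refine Real.rpow_le_rpow_of_exponent_le (by norm_num) ?_
    nlinarith
  have hA : (3 * (L : ℝ) + 7) ^ 2 * 4 ≤ ((p : ℝ) ^ ε) ^ 2 := by
    have h6 : 2 * (3 * (L : ℝ) + 7) ≤ (p : ℝ) ^ ε := by linarith
    have h7 : (0 : ℝ) ≤ 2 * (3 * (L : ℝ) + 7) := by positivity
    nlinarith
  have hB : ((⌊(p : ℝ) ^ ε⌋₊ : ℝ) + 1) ^ 2 ≤ 4 * ((p : ℝ) ^ ε) ^ 2 := by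
    have h6 : (⌊(p : ℝ) ^ ε⌋₊ : ℝ) + 1 ≤ 2 * (p : ℝ) ^ ε := by linarith
    have h7 : (0 : ℝ) ≤ (⌊(p : ℝ) ^ ε⌋₊ : ℝ) + 1 := by positivity
    nlinarith
  have hfin : (4 : ℝ) ^ L * (3 * (L : ℝ) + 7) ^ 2 * ((⌊(p : ℝ) ^ ε⌋₊ : ℝ) + 1) ^ 2 ≤ p := by
    have hA' : (3 * (L : ℝ) + 7) ^ 2 ≤ ((p : ℝ) ^ ε) ^ 2 / 4 := by linarith
    calc (4 : ℝ) ^ L * (3 * (L : ℝ) + 7) ^ 2 * ((⌊(p : ℝ) ^ ε⌋₊ : ℝ) + 1) ^ 2
        ≤ (p : ℝ) ^ (1 - 4 * ε) * (((p : ℝ) ^ ε) ^ 2 / 4) * (4 * ((p : ℝ) ^ ε) ^ 2) := by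
          gcongr
      _ = (p : ℝ) ^ (1 - 4 * ε) * ((p : ℝ) ^ ε) ^ (4 : ℕ) := by ring
      _ = p := by
          rw [← Real.rpow_natCast, ← Real.rpow_mul hp0.le, ← Real.rpow_add hp0]
          rw [show 1 - 4 * ε + ε * ((4 : ℕ) : ℝ) = 1 by push_cast; ring, Real.rpow_one]
  exact_mod_cast hfin

end Run7.h439.LT
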