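import Mathlib

/-!
# The sign function `x ↦ (x (x² + 1) / p)` for primes `p ≡ 3 (mod 4)`: linear independence of its
# translates
-/

set_option autoImplicit false

namespace Run7.h439.LT

open Finset

variable {p : ℕ} [hp : Fact p.Prime]

/-- The Legendre symbol of `x (x² + 1)`. -/
def sg (x : ZMod p) : ℤ := quadraticChar (ZMod p) (x * (x ^ 2 + 1))

omit hp in
theorem half (h4 : p % 4 = 3) : p = 2 * (p / 2) + 1 ∧ Odd (p / 2) := by
  constructor
  · omega
  · rw [Nat.odd_iff]
    omega

theorem ringChar_ne (h4 : p % 4 = 3) : ringChar (ZMod p) ≠ 2 := by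
  rw [ZMod.ringChar_zmod_n]
  omega

theorem sq_add_one_ne (h4 : p % 4 = 3) (x : ZMod p) : x ^ 2 + 1 ≠ 0 := by
  intro h
  have h1 : IsSquare (-1 : ZMod p) := ⟨x, by linear_combination -h⟩
  rw [ZMod.exists_sq_eq_neg_one_iff] at h1
  exact h1 h4

theorem arg_ne (h4 : p % 4 = 3) {x : ZMod p} (hx : x ≠ 0) : x * (x ^ 2 + 1) ≠ 0 :=
  mul_ne_zero hx (sq_add_one_ne h4 x)

theorem sg_zero : sg (0 : ZMod p) = 0 := by
  simp [sg]

theorem sg_cases (h4 : p % 4 = 3) {x : ZMod p} (hx : x ≠ 0) : sg x = 1 ∨ sg x = -1 :=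
  quadraticChar_dichotomy (arg_ne h4 hx)

theorem sg_neg (h4 : p % 4 = 3) (x : ZMod p) : sg (-x) = - sg x := by
  have h1 : quadraticChar (ZMod p) (-1) = -1 := by
    rcases quadraticChar_dichotomy (F := ZMod p) (a := -1) (by
      rw [neg_ne_zero]; exact one_ne_zero) with h | h
    · exfalso
      rw [quadraticChar_one_iff_isSquare (neg_ne_zero.2 one_ne_zero),
        ZMod.exists_sq_eq_neg_one_iff] at h
      exact h h4
    · exact h
  have h2 : (-x) * ((-x) ^ 2 + 1) = (-1) * (x * (x ^ 2 + 1)) := by ring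
  rw [sg, h2, map_mul, h1, sg]
  ring

theorem sg_cast (h4 : p % 4 = 3) (x : ZMod p) :
    ((sg x : ℤ) : ZMod p) = (x * (x ^ 2 + 1)) ^ (p / 2) := by
  have := quadraticChar_eq_pow_of_char_ne_two' (ringChar_ne h4) (x * (x ^ 2 + 1))
  rwa [ZMod.card] at this

/-- power sums over the nonzero elements -/
theorem sum_pow_nonzero {e : ℕ} (he : 0 < e) :
    ∑ x : ZMod p, x ^ e = if p - 1 ∣ e then (-1 : ZMod p) else 0 := by
  classical
  have h1 := FiniteField.sum_pow_units (ZMod p) e
  rw [ZMod.card] at h1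
  rw [← h1]
  rw [← Finset.sum_erase (s := univ) (a := (0 : ZMod p)) (f := fun x => x ^ e) (zero_pow he.ne')]
  symm
  refine Finset.sum_bij (fun (u : (ZMod p)ˣ) _ => (u : ZMod p)) ?_ ?_ ?_ ?_
  · intro u _
    rw [Finset.mem_erase]
    exact ⟨u.ne_zero, Finset.mem_univ _⟩
  · intro u _ v _ h
    exact Units.ext h
  · intro x hx
    rw [Finset.mem_erase] at hx
    exact ⟨Units.mk0 x hx.1, Finset.mem_univ _, rfl⟩
  · intro u _
    rfl

theorem choose_ne {m : ℕ} (hm : m < p) {j : ℕ} (hj : j ≤ m) : ((m.choose j : ℕ) : ZMod p) ≠ 0 := by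
  intro h
  rw [ZMod.natCast_eq_zero_iff] at h
  have h1 : p ∣ m.factorial := by
    rw [← Nat.choose_mul_factorial_mul_factorial hj]
    exact Dvd.dvd.mul_right (Dvd.dvd.mul_right h _) _
  rw [hp.out.dvd_factorial] at h1
  omega

/-- The moments of `d` vanish. -/
theorem moment_zero (h4 : p % 4 = 3) (d : ZMod p → ZMod p)
    (h : ∀ σ : ZMod p, σ ≠ 0 → ∑ x, d x * (σ * x * ((σ * x) ^ 2 + 1)) ^ (p / 2) = 0)
    (j₀ : ℕ) (hj₀ : j₀ < p / 2) : ∑ x, d x * x ^ (p / 2 + 2 * j₀) = 0 := by
  classical
  obtain ⟨hp2, hodd⟩ := half h4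
  set m := p / 2 with hm
  have hm0 : 0 < m := hodd.pos
  set M : ℕ → ZMod p := fun e => ∑ x, d x * x ^ e with hM
  -- expansion
  have h1 : ∀ σ : ZMod p, ∑ x, d x * (σ * x * ((σ * x) ^ 2 + 1)) ^ m =
      ∑ j ∈ range (m + 1), (m.choose j : ZMod p) * M (m + 2 * j) * σ ^ (m + 2 * j) := by
    intro σ
    have h2 : ∀ x : ZMod p, d x * (σ * x * ((σ * x) ^ 2 + 1)) ^ m =
        ∑ j ∈ range (m + 1), (m.choose j : ZMod p) * (d x * x ^ (m + 2 * j)) * σ ^ (m + 2 * j) := by
      intro x
      rw [mul_pow, add_pow, Finset.mul_sum, Finset.mul_sum]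
      refine Finset.sum_congr rfl fun j _ => ?_
      rw [one_pow, mul_one, mul_pow, ← pow_mul, mul_pow, pow_add, pow_add]
      ring
    rw [Finset.sum_congr rfl (fun x _ => h2 x), Finset.sum_comm]
    refine Finset.sum_congr rfl fun j _ => ?_
    rw [hM]
    simp only
    rw [Finset.mul_sum, Finset.sum_mul]
  -- orthogonality
  set t : ℕ := 3 * m - 2 * j₀ with ht
  have ht0 : 0 < t := by omega
  have h3 : ∑ σ : ZMod p, σ ^ t *
      (∑ j ∈ range (m + 1), (m.choose j : ZMod p) * M (m + 2 * j) * σ ^ (m + 2 * j)) = 0 := by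
    refine Finset.sum_eq_zero fun σ _ => ?_
    by_cases hσ : σ = 0
    · rw [hσ, zero_pow ht0.ne', zero_mul]
    · rw [← h1 σ, h σ hσ, mul_zero]
  have h4' : ∑ j ∈ range (m + 1), (m.choose j : ZMod p) * M (m + 2 * j) *
      (if p - 1 ∣ t + (m + 2 * j) then (-1 : ZMod p) else 0) = 0 := by
    refine Eq.trans ?_ h3
    simp_rw [Finset.mul_sum]
    rw [Finset.sum_comm]
    refine Finset.sum_congr rfl fun j _ => ?_
    have e := sum_pow_nonzero (p := p) (e := t + (m + 2 * j)) (by omega)
    rw [← e, Finset.mul_sum]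
    refine Finset.sum_congr rfl fun σ _ => ?_
    rw [pow_add σ t]
    ring
  have hdiv : ∀ j ∈ range (m + 1), (p - 1 ∣ t + (m + 2 * j) ↔ j = j₀ ∨ (j₀ = 0 ∧ j = m)) := by
    intro j hj
    have hj' : j ≤ m := by
      rw [Finset.mem_range] at hj
      omega
    have hpm : p - 1 = 2 * m := by omega
    rw [hpm]
    constructor
    · rintro ⟨q, hq⟩
      have h5 : 2 * m + (j - j₀ : ℤ) = m * q := by
        have : (3 * m - 2 * j₀ : ℤ) + (m + 2 * j) = 2 * m * q := by
          have := congrArg (Nat.cast : ℕ → ℤ) hq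
          rw [ht] at this
          push_cast [Nat.cast_sub (by omega : 2 * j₀ ≤ 3 * m)] at this
          linarith
        linarith
      have hq2 : (q : ℤ) = 2 ∨ (q : ℤ) = 3 := by
        have ha : (m : ℤ) < m * q := by
          rw [← h5]; omega
        have hb : (m : ℤ) * q ≤ m * 3 := by
          rw [← h5]; omega
        have hmpos : (0 : ℤ) < m := by exact_mod_cast hm0
        have ha' : (1 : ℤ) < q := by
          by_contra hcon
          push Not at hcon
          nlinarith
        have hb' : (q : ℤ) ≤ 3 := le_of_mul_le_mul_left hb hmpos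
        omega
      rcases hq2 with h6 | h6
      · left
        rw [h6] at h5
        omega
      · right
        rw [h6] at h5
        omega
    · rintro (rfl | ⟨h5, rfl⟩)
      · exact ⟨2, by omega⟩
      · exact ⟨3, by omega⟩
  rw [Finset.sum_congr rfl (g := fun j => (m.choose j : ZMod p) * M (m + 2 * j) *
    (if (j = j₀ ∨ (j₀ = 0 ∧ j = m)) then (-1 : ZMod p) else 0)) (fun j hj => by
      simp only [hdiv j hj])] at h4'
  simp only [mul_ite, mul_neg, mul_one, mul_zero] at h4'
  rw [← Finset.sum_filter] at h4'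
  by_cases hz : j₀ = 0
  · have hf : (range (m + 1)).filter (fun j => j = j₀ ∨ (j₀ = 0 ∧ j = m)) = {0, m} := by
      ext j
      rw [Finset.mem_filter, Finset.mem_range, Finset.mem_insert, Finset.mem_singleton]
      omega
    rw [hf, Finset.sum_pair (by omega)] at h4'
    have h5 : M (m + 2 * m) = M m := by
      rw [hM]
      simp only
      refine Finset.sum_congr rfl fun x _ => ?_
      by_cases hx : x = 0
      · rw [hx, zero_pow (by omega), zero_pow (by omega)]
      · have : x ^ (2 * m) = 1 := by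
          have := ZMod.pow_card_sub_one_eq_one hx
          rwa [show p - 1 = 2 * m by omega] at this
        rw [pow_add, this, mul_one]
    rw [h5, Nat.choose_zero_right, Nat.choose_self, Nat.cast_one, mul_zero, add_zero] at h4'
    have h6 : (2 : ZMod p) * M m = 0 := by linear_combination -h4'
    have h7 : (2 : ZMod p) ≠ 0 := by
      have : ((2 : ℕ) : ZMod p) ≠ 0 := by
        rw [Ne, ZMod.natCast_eq_zero_iff]
        intro hd
        have := Nat.le_of_dvd (by norm_num) hd
        omega
      exact_mod_cast this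
    rw [hz, mul_zero, add_zero]
    exact (mul_eq_zero.1 h6).resolve_left h7
  · have hf : (range (m + 1)).filter (fun j => j = j₀ ∨ (j₀ = 0 ∧ j = m)) = {j₀} := by
      ext j
      rw [Finset.mem_filter, Finset.mem_range, Finset.mem_singleton]
      omega
    rw [hf, Finset.sum_singleton, neg_eq_zero] at h4'
    exact (mul_eq_zero.1 h4').resolve_left (choose_ne (by omega) hj₀.le)

/-- Linear independence modulo `p`. -/
theorem indep_mod (h4 : p % 4 = 3) (d : ZMod p → ZMod p) (hodd : ∀ x, d (-x) = - d x)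
    (h : ∀ σ : ZMod p, σ ≠ 0 → ∑ x, d x * (σ * x * ((σ * x) ^ 2 + 1)) ^ (p / 2) = 0)
    (x₀ : ZMod p) (hx₀ : x₀ ≠ 0) : d x₀ = 0 := by
  classical
  obtain ⟨hp2, hmodd⟩ := half h4
  have hM := moment_zero h4 d h
  set m := p / 2 with hm
  have hm0 : 0 < m := hmodd.pos
  have h1 : ∑ j ∈ range m, (∑ x, d x * x ^ (m + 2 * j)) * (x₀⁻¹) ^ (m + 2 * j) = 0 := by
    refine Finset.sum_eq_zero fun j hj => ?_
    rw [hM j (Finset.mem_range.1 hj), zero_mul]
  have h2 : ∑ x, d x * ∑ j ∈ range m, (x * x₀⁻¹) ^ (m + 2 * j) = 0 := by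
    rw [← h1]
    simp_rw [Finset.mul_sum, Finset.sum_mul]
    rw [Finset.sum_comm]
    refine Finset.sum_congr rfl fun j _ => Finset.sum_congr rfl fun x _ => ?_
    rw [mul_pow]
    ring
  have hg : ∀ y : ZMod p, ∑ j ∈ range m, y ^ (m + 2 * j) =
      if y = 1 then (m : ZMod p) else if y = -1 then -(m : ZMod p) else 0 := by
    intro y
    have h3 : ∑ j ∈ range m, y ^ (m + 2 * j) = y ^ m * ∑ j ∈ range m, (y ^ 2) ^ j := by
      rw [Finset.mul_sum]
      refine Finset.sum_congr rfl fun j _ => ?_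
      rw [pow_add, pow_mul]
    rw [h3]
    by_cases hy1 : y = 1
    · rw [if_pos hy1, hy1]
      simp
    rw [if_neg hy1]
    by_cases hy2 : y = -1
    · rw [if_pos hy2, hy2, hmodd.neg_one_pow]
      simp
    rw [if_neg hy2]
    by_cases hy0 : y = 0
    · rw [hy0, zero_pow hm0.ne', zero_mul]
    have hy3 : y ^ 2 ≠ 1 := by
      intro h
      have h' : (y - 1) * (y + 1) = 0 := by linear_combination h
      rcases mul_eq_zero.1 h' with h | h
      · exact hy1 (sub_eq_zero.1 h)
      · exact hy2 (eq_neg_of_add_eq_zero_left h)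
    have h5 : ∑ j ∈ range m, (y ^ 2) ^ j = 0 := by
      have h6 := geom_sum_mul (y ^ 2) m
      have h7 : (y ^ 2) ^ m = 1 := by
        rw [← pow_mul]
        have := ZMod.pow_card_sub_one_eq_one hy0
        rwa [show p - 1 = 2 * m by omega] at this
      rw [h7, sub_self] at h6
      exact (mul_eq_zero.1 h6).resolve_right (sub_ne_zero.2 hy3)
    rw [h5, mul_zero]
  simp_rw [hg] at h2
  have hne : x₀ ≠ -x₀ := by
    intro h
    have h8 : (2 : ZMod p) * x₀ = 0 := by linear_combination h
    rcases mul_eq_zero.1 h8 with h9 | h9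
    · have : ((2 : ℕ) : ZMod p) = 0 := by exact_mod_cast h9
      rw [ZMod.natCast_eq_zero_iff] at this
      have := Nat.le_of_dvd (by norm_num) this
      omega
    · exact hx₀ h9
  have h3 : ∑ x, d x * (if x * x₀⁻¹ = 1 then (m : ZMod p) else
      if x * x₀⁻¹ = -1 then -(m : ZMod p) else 0) = d x₀ * m + d (-x₀) * (-(m : ZMod p)) := by
    rw [← Finset.sum_subset (Finset.subset_univ ({x₀, -x₀} : Finset (ZMod p))), Finset.sum_pair hne]
    · rw [if_pos (mul_inv_cancel₀ hx₀), if_neg, if_pos]
      · rw [neg_mul, mul_inv_cancel₀ hx₀]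
      · rw [neg_mul, mul_inv_cancel₀ hx₀]
        intro h
        apply hne
        have := congrArg (fun z => z * x₀) h
        simp only [neg_mul, one_mul] at this
        exact this.symm
    · intro x _ hx
      rw [Finset.mem_insert, Finset.mem_singleton, not_or] at hx
      rw [if_neg, if_neg, mul_zero]
      · intro h
        apply hx.2
        have := congrArg (fun z => z * x₀) h
        simp only [mul_assoc, inv_mul_cancel₀ hx₀, mul_one, neg_mul, one_mul] at this
        exact this
      · intro h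
        apply hx.1
        have := congrArg (fun z => z * x₀) h
        simp only [mul_assoc, inv_mul_cancel₀ hx₀, mul_one, one_mul] at this
        exact this
  rw [h3, hodd] at h2
  have h4' : (2 * m : ZMod p) = -1 := by
    have : ((2 * m + 1 : ℕ) : ZMod p) = 0 := by
      rw [← hp2]
      exact ZMod.natCast_self p
    push_cast at this
    linear_combination this
  linear_combination (-1 : ZMod p) * h2 + d x₀ * h4'

/-- Linear independence over the integers. -/
theorem indep (h4 : p % 4 = 3) (d : ZMod p → ℤ) (hodd : ∀ x, d (-x) = - d x)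
    (h : ∀ σ : ZMod p, σ ≠ 0 → ∑ x, d x * sg (σ * x) = 0) (x₀ : ZMod p) : d x₀ = 0 := by
  classical
  have key : ∀ (N : ℕ) (d : ZMod p → ℤ), (∀ x, d (-x) = - d x) →
      (∀ σ : ZMod p, σ ≠ 0 → ∑ x, d x * sg (σ * x) = 0) → ∀ x, (p : ℤ) ^ N ∣ d x := by
    intro N
    induction N with
    | zero => intro d _ _ x; rw [pow_zero]; exact one_dvd _
    | succ N ih =>
      intro d hodd h x
      have h1 : ∀ x, (p : ℤ) ∣ d x := by
        intro x
        by_cases hx : x = 0
        · have := hodd 0
          rw [neg_zero] at this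
          rw [hx, show d 0 = 0 by omega]
          exact dvd_zero _
        · rw [← ZMod.intCast_zmod_eq_zero_iff_dvd]
          refine indep_mod h4 (fun x => ((d x : ℤ) : ZMod p)) ?_ ?_ x hx
          · intro x
            simp only [hodd, Int.cast_neg]
          · intro σ hσ
            have h2 := congrArg (Int.cast : ℤ → ZMod p) (h σ hσ)
            push_cast at h2
            rw [← h2]
            refine Finset.sum_congr rfl fun x _ => ?_
            rw [sg_cast h4]
      choose e he using h1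
      have hp0 : (p : ℤ) ≠ 0 := by exact_mod_cast hp.out.ne_zero
      have h2 : ∀ x, (p : ℤ) ^ N ∣ e x := by
        refine ih e ?_ ?_
        · intro x
          have := hodd x
          rw [he, he, ← mul_neg] at this
          exact mul_left_cancel₀ hp0 this
        · intro σ hσ
          have h3 := h σ hσ
          have h4 : (p : ℤ) * ∑ x, e x * sg (σ * x) = 0 := by
            rw [← h3, Finset.mul_sum]
            refine Finset.sum_congr rfl fun x _ => ?_
            rw [he x]
            ring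
          exact (mul_eq_zero.1 h4).resolve_left hp0
      rw [he x, pow_succ']
      exact mul_dvd_mul_left _ (h2 x)
  by_contra hne
  have h1 := key (d x₀).natAbs d hodd h x₀
  have h2 := Int.le_of_dvd (abs_pos.2 hne) ((dvd_abs _ _).2 h1)
  have h3 : (d x₀).natAbs < p ^ (d x₀).natAbs := Nat.lt_pow_self hp.out.one_lt
  have h4 : ((d x₀).natAbs : ℤ) < (p : ℤ) ^ (d x₀).natAbs := by exact_mod_cast h3
  rw [Int.natCast_natAbs] at h4
  exact absurd h2 (not_le.2 h4)

end Run7.h439.LT
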