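import Pool.Agent.Run7.h439.LT.Core1
import Pool.Agent.H341R2.WeilSharp

/-!
# Correlations of the translates of `x ↦ (x (x² + 1) / p)` from Weil's bound
-/

set_option autoImplicit false

namespace Run7.h439.LT

open Finset Polynomial

variable {p : ℕ} [hp : Fact p.Prime]

noncomputable def gy (y : ZMod p) : (ZMod p)[X] := (C y * X) ^ 2 + 1

noncomputable def fI (I : Finset (ZMod p)) : (ZMod p)[X] := ∏ y ∈ I, ((C y * X) * gy y)

theorem gy_eq (y : ZMod p) : gy y = C (y ^ 2) * X ^ 2 + C 0 * X + C 1 := by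
  rw [gy, mul_pow, C_0, zero_mul, add_zero, C_1, C_pow]

theorem natDegree_gy {y : ZMod p} (hy : y ≠ 0) : (gy y).natDegree = 2 := by
  rw [gy_eq]
  exact natDegree_quadratic (pow_ne_zero 2 hy)

theorem gy_ne {y : ZMod p} (hy : y ≠ 0) : gy y ≠ 0 := by
  intro h
  have := natDegree_gy hy
  rw [h, natDegree_zero] at this
  omega

theorem natDegree_lin {y : ZMod p} (hy : y ≠ 0) : (C y * X : (ZMod p)[X]).natDegree = 1 :=
  natDegree_C_mul_X y hy

theorem lin_ne {y : ZMod p} (hy : y ≠ 0) : (C y * X : (ZMod p)[X]) ≠ 0 :=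
  mul_ne_zero (C_ne_zero.2 hy) X_ne_zero

theorem natDegree_fI {I : Finset (ZMod p)} (hI : ∀ y ∈ I, y ≠ 0) :
    (fI I).natDegree = 3 * I.card := by
  rw [fI, natDegree_prod _ _ (fun y hy => mul_ne_zero (lin_ne (hI y hy)) (gy_ne (hI y hy)))]
  rw [Finset.sum_congr rfl (g := fun _ => 3)]
  · rw [Finset.sum_const, smul_eq_mul, mul_comm]
  · intro y hy
    rw [natDegree_mul (lin_ne (hI y hy)) (gy_ne (hI y hy)), natDegree_lin (hI y hy),
      natDegree_gy (hI y hy)]

theorem eval_fI (I : Finset (ZMod p)) (x : ZMod p) :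
    (fI I).eval x = ∏ y ∈ I, ((x * y) * ((x * y) ^ 2 + 1)) := by
  rw [fI, eval_prod]
  refine Finset.prod_congr rfl fun y _ => ?_
  rw [gy]
  simp only [eval_mul, eval_C, eval_X, eval_add, eval_pow, eval_one]
  rw [mul_comm x y]

theorem prime_gy (h4 : p % 4 = 3) {y : ZMod p} (hy : y ≠ 0) : Prime (gy y) := by
  have h2 := natDegree_gy hy
  have : Irreducible (gy y) := by
    rw [irreducible_iff_roots_eq_zero_of_degree_le_three (by omega) (by omega)]
    rw [Multiset.eq_zero_iff_forall_notMem]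
    intro x hx
    rw [mem_roots (gy_ne hy), IsRoot, gy] at hx
    simp only [eval_mul, eval_C, eval_X, eval_add, eval_pow, eval_one] at hx
    exact sq_add_one_ne h4 (y * x) hx
  exact this.prime

theorem not_sq (h4 : p % 4 = 3) {I : Finset (ZMod p)} (hI : ∀ y ∈ I, y ≠ 0 ∧ -y ∉ I)
    (hne : I.Nonempty) (c : ZMod p) (h : (ZMod p)[X]) : fI I ≠ C c * h ^ 2 := by
  classical
  obtain ⟨y₀, hy₀⟩ := hne
  have hy0 := (hI y₀ hy₀).1
  have hprime := prime_gy h4 hy0
  intro heq
  have hf : fI I = gy y₀ * ((C y₀ * X) * ∏ y ∈ I.erase y₀, ((C y * X) * gy y)) := by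
    rw [fI, ← Finset.mul_prod_erase I _ hy₀]
    ring
  have hf0 : fI I ≠ 0 := by
    rw [fI, Finset.prod_ne_zero_iff]
    intro y hy
    exact mul_ne_zero (lin_ne (hI y hy).1) (gy_ne (hI y hy).1)
  have hc : c ≠ 0 := by
    rintro rfl
    apply hf0
    rw [heq, C_0, zero_mul]
  have h1 : gy y₀ ∣ C c * h ^ 2 := by
    rw [← heq, hf]
    exact dvd_mul_right _ _
  have h2 : gy y₀ ∣ h := by
    rcases hprime.dvd_or_dvd h1 with h3 | h3
    · exfalso
      have := natDegree_le_of_dvd h3 (C_ne_zero.2 hc)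
      rw [natDegree_C, natDegree_gy hy0] at this
      omega
    · exact hprime.dvd_of_dvd_pow h3
  obtain ⟨h', rfl⟩ := h2
  have h3 : gy y₀ ∣ (C y₀ * X) * ∏ y ∈ I.erase y₀, ((C y * X) * gy y) := by
    refine ⟨C c * h' ^ 2, ?_⟩
    apply mul_left_cancel₀ (gy_ne hy0)
    rw [← hf, heq]
    ring
  have hlin : ∀ y : ZMod p, y ≠ 0 → ¬ gy y₀ ∣ (C y * X) := by
    intro y hy hd
    have := natDegree_le_of_dvd hd (lin_ne hy)
    rw [natDegree_lin hy, natDegree_gy hy0] at this
    omega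
  rcases hprime.dvd_or_dvd h3 with h5 | h5
  · exact hlin y₀ hy0 h5
  · rw [hprime.dvd_finsetProd_iff] at h5
    obtain ⟨y, hy, h6⟩ := h5
    rw [Finset.mem_erase] at hy
    have hyI := hI y hy.2
    rcases hprime.dvd_or_dvd h6 with h7 | h7
    · exact hlin y hyI.1 h7
    · obtain ⟨q, hq⟩ := h7
      have hq0 : q ≠ 0 := by
        rintro rfl
        rw [mul_zero] at hq
        exact gy_ne hyI.1 hq
      have hdeg : q.natDegree = 0 := by
        have := congrArg natDegree hq
        rw [natDegree_mul (gy_ne hy0) hq0, natDegree_gy hy0, natDegree_gy hyI.1] at this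
        omega
      obtain ⟨e, he⟩ := natDegree_eq_zero.1 hdeg
      have hc0 := congrArg (eval 0) hq
      have hc1 := congrArg (eval 1) hq
      rw [← he, gy, gy] at hc0 hc1
      simp only [eval_mul, eval_C, eval_X, eval_add, eval_pow, eval_one] at hc0 hc1
      have he1 : e = 1 := by linear_combination -hc0
      rw [he1] at hc1
      have h8 : (y - y₀) * (y + y₀) = 0 := by linear_combination hc1
      rcases mul_eq_zero.1 h8 with h9 | h9
      · exact hy.1 (sub_eq_zero.1 h9)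
      · apply (hI y₀ hy₀).2
        rw [← eq_neg_of_add_eq_zero_left h9]
        exact hy.2

/-- The correlation sums. -/
noncomputable def S (I : Finset (ZMod p)) : ℝ := ∑ σ : ZMod p, ∏ y ∈ I, ((sg (σ * y) : ℤ) : ℝ)

theorem S_empty : S (∅ : Finset (ZMod p)) = p := by
  rw [S]
  simp [ZMod.card]

theorem S_bound (h4 : p % 4 = 3) {I : Finset (ZMod p)} (hI : ∀ y ∈ I, y ≠ 0 ∧ -y ∉ I)
    (hne : I.Nonempty) : |S I| ≤ (3 * (I.card : ℝ) - 1) * Real.sqrt p := by
  have h1 := Pool.Agent.H341R2.Sharp.weil_sharp (F := ZMod p) (ringChar_ne h4) (fI I) (by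
    rw [natDegree_fI (fun y hy => (hI y hy).1)]
    have := hne.card_pos
    omega) (not_sq h4 hI hne)
  rw [natDegree_fI (fun y hy => (hI y hy).1), ZMod.card] at h1
  have h2 : S I = ∑ x : ZMod p, (quadraticChar (ZMod p) ((fI I).eval x) : ℝ) := by
    rw [S]
    refine Finset.sum_congr rfl fun x _ => ?_
    rw [eval_fI, map_prod]
    push_cast
    rfl
  rw [h2]
  refine h1.trans_eq ?_
  push_cast
  ring

end Run7.h439.LT
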