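import Pool.Agent.Run7.h439.LT.Core2

/-!
# The level lemma
-/

set_option autoImplicit false

namespace Run7.h439.LT

open Finset

theorem two_sum_card {α : Type*} [DecidableEq α] (J : Finset α) :
    ∑ I ∈ J.powerset, (2 * (I.card : ℝ)) = J.card * 2 ^ J.card := by
  have h1 : ∑ I ∈ J.powerset, (I.card : ℝ) = ∑ I ∈ J.powerset, ((J \ I).card : ℝ) := by
    refine Finset.sum_bij' (fun I _ => J \ I) (fun I _ => J \ I) ?_ ?_ ?_ ?_ ?_
    · intro I _
      rw [mem_powerset]
      exact sdiff_subset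
    · intro I _
      rw [mem_powerset]
      exact sdiff_subset
    · intro I hI
      exact Finset.sdiff_sdiff_eq_self (mem_powerset.1 hI)
    · intro I hI
      exact Finset.sdiff_sdiff_eq_self (mem_powerset.1 hI)
    · intro I hI
      rw [Finset.sdiff_sdiff_eq_self (mem_powerset.1 hI)]
  have h2 : ∑ I ∈ J.powerset, (2 * (I.card : ℝ)) =
      ∑ I ∈ J.powerset, ((I.card : ℝ) + ((J \ I).card : ℝ)) := by
    rw [sum_add_distrib, ← h1, ← mul_sum]
    ring
  rw [h2, sum_congr rfl (g := fun _ => (J.card : ℝ))]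
  · rw [sum_const, card_powerset, nsmul_eq_mul]
    push_cast
    ring
  · intro I hI
    have := card_sdiff_add_card_eq_card (mem_powerset.1 hI)
    rw [← this]
    push_cast
    ring

variable {p : ℕ} [hp : Fact p.Prime]

/-- `∏_{y ∈ J} (1 + sg (σ y))` -/
noncomputable def Q (J : Finset (ZMod p)) (σ : ZMod p) : ℝ :=
  ∏ y ∈ J, (1 + ((sg (σ * y) : ℤ) : ℝ))

theorem Q_nonneg (h4 : p % 4 = 3) (J : Finset (ZMod p)) (σ : ZMod p) : 0 ≤ Q J σ := by
  refine prod_nonneg fun y _ => ?_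
  by_cases h : σ * y = 0
  · rw [h, sg_zero]
    norm_num
  · rcases sg_cases h4 h with h | h <;> rw [h] <;> norm_num

theorem Q_zero (J : Finset (ZMod p)) : Q J 0 = 1 := by
  rw [Q]
  refine prod_eq_one fun y _ => ?_
  rw [zero_mul, sg_zero]
  norm_num

theorem sum_Q (J : Finset (ZMod p)) : ∑ σ, Q J σ = ∑ I ∈ J.powerset, S I := by
  simp only [Q, S, prod_one_add]
  exact Finset.sum_comm

theorem sum_Q_mul (J : Finset (ZMod p)) {x : ZMod p} (hx : x ∉ J) :
    ∑ σ, Q J σ * ((sg (σ * x) : ℤ) : ℝ) = ∑ I ∈ J.powerset, S (insert x I) := by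
  simp only [Q, S, prod_one_add]
  rw [Finset.sum_comm]
  refine Finset.sum_congr rfl fun σ _ => ?_
  rw [Finset.sum_mul]
  refine Finset.sum_congr rfl fun I hI => ?_
  rw [Finset.prod_insert (fun h => hx (mem_powerset.1 hI h)), mul_comm]

theorem Q_mul_self (h4 : p % 4 = 3) (J : Finset (ZMod p)) {x : ZMod p} (hx : x ∈ J) (hx0 : x ≠ 0)
    {σ : ZMod p} (hσ : σ ≠ 0) : Q J σ * ((sg (σ * x) : ℤ) : ℝ) = Q J σ := by
  rw [Q, ← Finset.mul_prod_erase J _ hx]
  rcases sg_cases h4 (mul_ne_zero hσ hx0) with h | h <;> rw [h] <;> norm_num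

theorem level (h4 : p % 4 = 3) (c : ZMod p → ℕ) (hc0 : c 0 = 0) (hc : ∀ x, 0 < c x → c (-x) = 0)
    (J : Finset (ZMod p)) (hJ : ∀ x ∈ J, 0 < c x) {L k : ℕ} (hJL : J.card ≤ L + 1)
    (hk : ∑ x, c x ≤ k) (hpL : 4 ^ L * (3 * L + 7) ^ 2 * (k + 1) ^ 2 ≤ p) :
    ∃ b : ZMod p, b ≠ 0 ∧ ((∑ x ∈ J, c x : ℕ) : ℤ) ≤ ∑ x, (c x : ℤ) * sg (b * x) := by
  classical
  by_contra hcon
  push Not at hcon
  set r := J.card with hr
  set s : ℝ := Real.sqrt p with hs
  have hs0 : 0 ≤ s := Real.sqrt_nonneg _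
  have hss : s * s = p := Real.mul_self_sqrt (Nat.cast_nonneg p)
  set U : ℝ := 2 ^ r * (3 * (r : ℝ) + 4) / 2 with hU
  have hU0 : 0 ≤ U := by positivity
  have h2r : (1 : ℝ) ≤ 2 ^ r := one_le_pow₀ (by norm_num)
  -- `(k+1) U ≤ s`
  have hUs : ((k : ℝ) + 1) * U ≤ s := by
    have h1 : U ≤ 2 ^ L * (3 * (L : ℝ) + 7) := by
      have h2 : (2 : ℝ) ^ r ≤ 2 ^ (L + 1) := pow_le_pow_right₀ (by norm_num) hJL
      have h3 : (3 * (r : ℝ) + 4) ≤ 3 * (L : ℝ) + 7 := by
        have : (r : ℝ) ≤ L + 1 := by exact_mod_cast hJL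
        linarith
      have h5 : (2 : ℝ) ^ r * (3 * (r : ℝ) + 4) ≤ 2 ^ (L + 1) * (3 * (L : ℝ) + 7) :=
        mul_le_mul h2 h3 (by positivity) (by positivity)
      rw [pow_succ] at h5
      rw [hU]
      linarith
    have h2 : ((k : ℝ) + 1) * U ≤ ((k : ℝ) + 1) * (2 ^ L * (3 * (L : ℝ) + 7)) :=
      mul_le_mul_of_nonneg_left h1 (by positivity)
    refine h2.trans ?_
    apply Real.le_sqrt_of_sq_le
    have h6 : ((4 ^ L * (3 * L + 7) ^ 2 * (k + 1) ^ 2 : ℕ) : ℝ) ≤ p := by exact_mod_cast hpL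
    refine le_trans (le_of_eq ?_) h6
    push_cast
    rw [mul_pow, mul_pow, ← pow_mul, mul_comm L 2, pow_mul]
    norm_num
    ring
  have hs1 : 1 ≤ s := by
    have h1 : (1 : ℝ) ≤ ((k : ℝ) + 1) * U := by
      have h2 : (1 : ℝ) ≤ (k : ℝ) + 1 := by
        have : (0 : ℝ) ≤ k := Nat.cast_nonneg k
        linarith
      have h3 : (1 : ℝ) ≤ U := by
        have h5 : (0 : ℝ) ≤ (2 : ℝ) ^ r * r := by positivity
        rw [hU]
        nlinarith
      nlinarith
    linarith
  -- the sums over subsets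
  have hcard : ∑ I ∈ J.powerset, (3 * ((I.card : ℝ) + 1) - 1) * s = U * s := by
    rw [← Finset.sum_mul]
    congr 1
    have h1 := two_sum_card J
    have h2 : ∑ I ∈ J.powerset, (3 * ((I.card : ℝ) + 1) - 1) =
        (3 / 2) * ∑ I ∈ J.powerset, (2 * (I.card : ℝ)) + ∑ _I ∈ J.powerset, (2 : ℝ) := by
      rw [Finset.mul_sum, ← Finset.sum_add_distrib]
      refine Finset.sum_congr rfl fun I _ => ?_
      ring
    rw [h2, h1, sum_const, card_powerset, nsmul_eq_mul, hU, ← hr]
    push_cast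
    ring
  have hgoodJ : ∀ y ∈ J, y ≠ 0 ∧ -y ∉ J := by
    intro y hy
    constructor
    · rintro rfl
      have := hJ 0 hy
      omega
    · intro h
      have h1 := hJ _ h
      rw [hc y (hJ y hy)] at h1
      omega
  -- lower bound for `A`
  set A : ℝ := ∑ σ ∈ univ.erase (0 : ZMod p), Q J σ with hA
  have hA1 : A + 1 = ∑ I ∈ J.powerset, S I := by
    rw [← sum_Q, ← Finset.sum_erase_add _ _ (mem_univ (0 : ZMod p)), Q_zero]
  have hAlow : (p : ℝ) - 1 - (U - 3 * 2 ^ r + 1) * s ≤ A := by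
    have hmem : (∅ : Finset (ZMod p)) ∈ J.powerset := empty_mem_powerset J
    rw [← Finset.sum_erase_add _ _ hmem, S_empty] at hA1
    have h1 : -(∑ I ∈ J.powerset.erase ∅, (3 * (I.card : ℝ) - 1) * s) ≤
        ∑ I ∈ J.powerset.erase ∅, S I := by
      rw [← Finset.sum_neg_distrib]
      refine Finset.sum_le_sum fun I hI => ?_
      rw [mem_erase, mem_powerset] at hI
      have := S_bound h4 (I := I) (fun y hy => ⟨(hgoodJ y (hI.2 hy)).1,
        fun h => (hgoodJ y (hI.2 hy)).2 (hI.2 h)⟩) (nonempty_iff_ne_empty.2 hI.1)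
      exact (abs_le.1 this).1
    have h2 : ∑ I ∈ J.powerset.erase ∅, (3 * (I.card : ℝ) - 1) * s = (U - 3 * 2 ^ r + 1) * s := by
      have h3 : ∑ I ∈ J.powerset, (3 * (I.card : ℝ) - 1) * s = (U - 3 * 2 ^ r) * s := by
        rw [sub_mul, ← hcard]
        have h5 : (3 * 2 ^ r : ℝ) * s = ∑ _I ∈ J.powerset, 3 * s := by
          rw [sum_const, card_powerset, nsmul_eq_mul, ← hr]
          push_cast
          ring
        rw [h5, ← Finset.sum_sub_distrib]
        refine Finset.sum_congr rfl fun I _ => ?_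
        ring
      rw [← Finset.sum_erase_add _ _ hmem] at h3
      simp only [card_empty, Nat.cast_zero, mul_zero, zero_sub] at h3
      linarith
    linarith
  -- the main sum
  set T : ZMod p → ℝ := fun σ => ∑ x, (c x : ℝ) * ((sg (σ * x) : ℤ) : ℝ) with hT
  set CJ : ℝ := ∑ x ∈ J, (c x : ℝ) with hCJ
  have hTle : ∀ σ : ZMod p, σ ≠ 0 → T σ ≤ CJ - 1 := by
    intro σ hσ
    have h1 := hcon σ hσ
    have h2 : ∑ x, (c x : ℤ) * sg (σ * x) ≤ ((∑ x ∈ J, c x : ℕ) : ℤ) - 1 := by omega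
    have h3 : ((∑ x, (c x : ℤ) * sg (σ * x) : ℤ) : ℝ) ≤
        ((((∑ x ∈ J, c x : ℕ) : ℤ) - 1 : ℤ) : ℝ) := by exact_mod_cast h2
    push_cast at h3
    exact h3
  have hupper : ∑ σ ∈ univ.erase (0 : ZMod p), Q J σ * T σ ≤ A * (CJ - 1) := by
    rw [hA, Finset.sum_mul]
    refine Finset.sum_le_sum fun σ hσ => ?_
    exact mul_le_mul_of_nonneg_left (hTle σ (ne_of_mem_erase hσ)) (Q_nonneg h4 J σ)
  have hlower : A * CJ - (k : ℝ) * (U * s) ≤ ∑ σ ∈ univ.erase (0 : ZMod p), Q J σ * T σ := by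
    have h1 : ∑ σ ∈ univ.erase (0 : ZMod p), Q J σ * T σ =
        ∑ x, (c x : ℝ) * ∑ σ ∈ univ.erase (0 : ZMod p), Q J σ * ((sg (σ * x) : ℤ) : ℝ) := by
      simp only [hT, Finset.mul_sum]
      rw [Finset.sum_comm]
      refine Finset.sum_congr rfl fun x _ => Finset.sum_congr rfl fun σ _ => ?_
      ring
    have h2 : ∀ x, (if x ∈ J then (c x : ℝ) * A else -((c x : ℝ) * (U * s))) ≤
        (c x : ℝ) * ∑ σ ∈ univ.erase (0 : ZMod p), Q J σ * ((sg (σ * x) : ℤ) : ℝ) := by
      intro x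
      split_ifs with hx
      · rw [hA]
        apply le_of_eq
        congr 1
        refine Finset.sum_congr rfl fun σ hσ => ?_
        rw [Q_mul_self h4 J hx (hgoodJ x hx).1 (ne_of_mem_erase hσ)]
      · by_cases hcx : c x = 0
        · rw [hcx]
          simp
        have hcx' : 0 < c x := Nat.pos_of_ne_zero hcx
        rw [← mul_neg]
        refine mul_le_mul_of_nonneg_left ?_ (Nat.cast_nonneg _)
        have h3 : ∑ σ ∈ univ.erase (0 : ZMod p), Q J σ * ((sg (σ * x) : ℤ) : ℝ) =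
            ∑ I ∈ J.powerset, S (insert x I) := by
          rw [← sum_Q_mul J hx, ← Finset.sum_erase_add _ _ (mem_univ (0 : ZMod p)), zero_mul,
            sg_zero]
          simp
        rw [h3, ← hcard, ← Finset.sum_neg_distrib]
        refine Finset.sum_le_sum fun I hI => ?_
        rw [mem_powerset] at hI
        have hxI : x ∉ I := fun h => hx (hI h)
        have hx0 : x ≠ 0 := by
          rintro rfl
          exact hcx hc0
        have := S_bound h4 (I := insert x I) (by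
          intro y hy
          rw [mem_insert] at hy
          rw [mem_insert, not_or]
          rcases hy with rfl | hy
          · refine ⟨hx0, ?_, ?_⟩
            · intro h
              have h1 := hc _ hcx'
              rw [h] at h1
              omega
            · intro h
              have h1 := hJ _ (hI h)
              rw [hc _ hcx'] at h1
              omega
          · refine ⟨(hgoodJ y (hI hy)).1, ?_, fun h => (hgoodJ y (hI hy)).2 (hI h)⟩
            intro h
            rw [← h, hc y (hJ y (hI hy))] at hcx'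
            omega) (insert_nonempty _ _)
        rw [card_insert_of_notMem hxI] at this
        push_cast at this
        exact (abs_le.1 this).1
    rw [h1]
    refine le_trans ?_ (Finset.sum_le_sum fun x _ => h2 x)
    rw [Finset.sum_ite, Finset.sum_neg_distrib, ← Finset.sum_mul, ← Finset.sum_mul,
      Finset.filter_mem_eq_inter, Finset.univ_inter, ← hCJ, mul_comm CJ A, ← sub_eq_add_neg]
    refine sub_le_sub_left (mul_le_mul_of_nonneg_right ?_ (mul_nonneg hU0 hs0)) _
    have h5 : ∑ x ∈ univ.filter (fun x => x ∉ J), (c x : ℝ) ≤ ∑ x, (c x : ℝ) :=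
      Finset.sum_le_sum_of_subset_of_nonneg (filter_subset _ _)
        (fun _ _ _ => Nat.cast_nonneg _)
    refine h5.trans ?_
    exact_mod_cast hk
  have hfin : A ≤ k * (U * s) := by linarith
  have h7 : ((k : ℝ) + 1) * U * s ≤ s * s := mul_le_mul_of_nonneg_right hUs hs0
  have h8 : s ≤ 2 ^ r * s := by nlinarith
  nlinarith

end Run7.h439.LT
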