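import Pool.Agent.Run7.h439.LT.Core3
import Pool.Agent.R677.FV.Galois
import Pool.Agent.TH170.LV.Direct

/-!
# Embeddings of the cyclotomic fields, and the CM types `a + 1 / a = □`
-/

set_option autoImplicit false

namespace Run7.h439.LT

open Finset NumberField Pool.Agent.H204R3.CM

/-- The root of unity `exp (2 π i a / p)`. -/
noncomputable def unity (p a : ℕ) : ℂ := Complex.exp (2 * Real.pi * Complex.I * (a / p))

/-- The set of all embeddings of a field, with a primitive `p`-th root of unity `ζ`, that send `ζ`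
to `exp (2 π i a / p)` such that `a + 1 / a` is a square modulo `p`. -/
def squareType (p : ℕ) {E : Type*} [Field E] (ζ : E) : Set (E →+* ℂ) :=
  {φ | ∃ a : ℕ, ¬ p ∣ a ∧ φ ζ = unity p a ∧ IsSquare ((a : ZMod p) + (a : ZMod p)⁻¹)}

theorem unity_eq (p a : ℕ) : unity p a = (unity p 1) ^ a := by
  rw [unity, unity, ← Complex.exp_nat_mul]
  congr 1
  push_cast
  ring

theorem unity_prim {p : ℕ} (hp : p ≠ 0) : IsPrimitiveRoot (unity p 1) p := by
  have := Complex.isPrimitiveRoot_exp p hp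
  rw [unity]
  convert this using 2
  push_cast
  ring

section one

theorem pow_eq_iff {p : ℕ} (hp0 : p ≠ 0) (m n : ℕ) :
    (unity p 1) ^ m = (unity p 1) ^ n ↔ (m : ZMod p) = (n : ZMod p) := by
  have hw := unity_prim hp0
  rw [ZMod.natCast_eq_natCast_iff, pow_eq_pow_mod m hw.pow_eq_one, pow_eq_pow_mod n hw.pow_eq_one]
  constructor
  · intro h
    exact hw.pow_inj (Nat.mod_lt _ (Nat.pos_of_ne_zero hp0)) (Nat.mod_lt _ (Nat.pos_of_ne_zero hp0)) h
  · intro h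
    have h' : m % p = n % p := h
    rw [h']

variable {p : ℕ} [hp : Fact p.Prime] {E : Type*} [Field E] {ζ : E}

theorem exists_ex (hζ : IsPrimitiveRoot ζ p) (φ : E →+* ℂ) :
    ∃ x : ZMod p, φ ζ = (unity p 1) ^ x.val := by
  have h1 : (φ ζ) ^ p = 1 := by
    rw [← map_pow, hζ.pow_eq_one, map_one]
  have : NeZero p := ⟨hp.out.ne_zero⟩
  obtain ⟨i, hi, h2⟩ := (unity_prim hp.out.ne_zero).eq_pow_of_pow_eq_one h1
  exact ⟨(i : ZMod p), by rw [ZMod.val_natCast, Nat.mod_eq_of_lt hi, h2]⟩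

/-- The exponent of an embedding. -/
noncomputable def ex (hζ : IsPrimitiveRoot ζ p) (φ : E →+* ℂ) : ZMod p := (exists_ex hζ φ).choose

theorem ex_spec (hζ : IsPrimitiveRoot ζ p) (φ : E →+* ℂ) :
    φ ζ = (unity p 1) ^ (ex hζ φ).val := (exists_ex hζ φ).choose_spec

theorem ex_eq (hζ : IsPrimitiveRoot ζ p) (φ : E →+* ℂ) (n : ℕ) (h : φ ζ = (unity p 1) ^ n) :
    ex hζ φ = n := by
  have h1 := ex_spec hζ φ
  rw [h, pow_eq_iff hp.out.ne_zero, ZMod.natCast_zmod_val] at h1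
  exact h1.symm

theorem ex_ne_zero (hζ : IsPrimitiveRoot ζ p) (φ : E →+* ℂ) : ex hζ φ ≠ 0 := by
  intro h
  have h1 := ex_spec hζ φ
  rw [h, ZMod.val_zero, pow_zero] at h1
  have h2 : ζ = 1 := φ.injective (by rw [h1, map_one])
  have h3 := hζ
  rw [h2] at h3
  have := h3.unique IsPrimitiveRoot.one
  exact hp.out.one_lt.ne' this

theorem ex_injective [NumberField E] [IsCyclotomicExtension {p} ℚ E] (hζ : IsPrimitiveRoot ζ p) {φ ψ : E →+* ℂ}
    (h : ex hζ φ = ex hζ ψ) : φ = ψ := by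
  have : NeZero p := ⟨hp.out.ne_zero⟩
  have h1 : φ ζ = ψ ζ := by rw [ex_spec hζ φ, ex_spec hζ ψ, h]
  have h2 : φ.toRatAlgHom = ψ.toRatAlgHom := by
    refine (hζ.powerBasis ℚ).algHom_ext ?_
    rw [hζ.powerBasis_gen ℚ]
    exact h1
  ext x
  exact DFunLike.congr_fun h2 x

theorem ex_conj (hζ : IsPrimitiveRoot ζ p) (φ : E →+* ℂ) :
    ex hζ (ComplexEmbedding.conjugate φ) = - ex hζ φ := by
  have hw := unity_prim hp.out.ne_zero
  have h1 : ComplexEmbedding.conjugate φ ζ = (unity p 1) ^ (- ex hζ φ).val := by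
    rw [ComplexEmbedding.conjugate_coe_eq, ex_spec hζ φ, map_pow]
    have h2 : (starRingEnd ℂ) (unity p 1) = (unity p 1)⁻¹ := by
      rw [← Complex.inv_eq_conj]
      exact hw.norm'_eq_one hp.out.ne_zero
    rw [h2, inv_pow]
    refine inv_eq_of_mul_eq_one_right ?_
    rw [← pow_add, ← pow_zero (unity p 1), pow_eq_iff hp.out.ne_zero]
    push_cast
    rw [ZMod.natCast_zmod_val, ZMod.natCast_zmod_val]
    ring
  rw [ex_eq hζ _ _ h1, ZMod.natCast_zmod_val]

theorem ex_comp (hζ : IsPrimitiveRoot ζ p) (φ : E →+* ℂ) (σ : ℂ ≃+* ℂ) (t : ℕ)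
    (h : σ (unity p 1) = (unity p 1) ^ t) :
    ex hζ ((σ : ℂ →+* ℂ).comp φ) = t * ex hζ φ := by
  have h1 : ((σ : ℂ →+* ℂ).comp φ) ζ = (unity p 1) ^ (t * (ex hζ φ).val) := by
    rw [RingHom.comp_apply, ex_spec hζ φ, map_pow]
    have : (σ : ℂ →+* ℂ) (unity p 1) = (unity p 1) ^ t := h
    rw [this, ← pow_mul]
  rw [ex_eq hζ _ _ h1]
  push_cast
  rw [ZMod.natCast_zmod_val]

theorem isSquare_iff (h4 : p % 4 = 3) {x : ZMod p} (hx : x ≠ 0) :
    IsSquare (x + x⁻¹) ↔ sg x = 1 := by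
  rw [sg, quadraticChar_one_iff_isSquare (arg_ne h4 hx)]
  constructor
  · rintro ⟨r, hr⟩
    refine ⟨r * x, ?_⟩
    have h1 : r * x * (r * x) = (r * r) * x ^ 2 := by ring
    rw [h1, ← hr]
    field_simp
  · rintro ⟨r, hr⟩
    refine ⟨r * x⁻¹, ?_⟩
    have h1 : r * x⁻¹ * (r * x⁻¹) = (r * r) * (x⁻¹) ^ 2 := by ring
    rw [h1, ← hr]
    field_simp

theorem mem_squareType (h4 : p % 4 = 3) (hζ : IsPrimitiveRoot ζ p) (φ : E →+* ℂ) :
    φ ∈ squareType p ζ ↔ sg (ex hζ φ) = 1 := by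
  rw [← isSquare_iff h4 (ex_ne_zero hζ φ)]
  constructor
  · rintro ⟨a, _, h2, h3⟩
    rw [unity_eq] at h2
    rwa [ex_eq hζ φ a h2]
  · intro h
    refine ⟨(ex hζ φ).val, ?_, ?_, ?_⟩
    · intro hd
      apply ex_ne_zero hζ φ
      rw [← ZMod.natCast_zmod_val (ex hζ φ), ZMod.natCast_eq_zero_iff]
      exact hd
    · rw [unity_eq]
      exact ex_spec hζ φ
    · rwa [ZMod.natCast_zmod_val]

theorem isCMType_squareType (h4 : p % 4 = 3) (hζ : IsPrimitiveRoot ζ p) :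
    IsCMType (squareType p ζ) := by
  intro φ
  rw [mem_squareType h4 hζ, mem_squareType h4 hζ, ex_conj, sg_neg h4]
  rcases sg_cases h4 (ex_ne_zero hζ φ) with h | h <;> rw [h] <;> norm_num

open Classical in
theorem sign_eq (h4 : p % 4 = 3) (hζ : IsPrimitiveRoot ζ p) (φ : E →+* ℂ) :
    (if φ ∈ squareType p ζ then (1 : ℤ) else -1) = sg (ex hζ φ) := by
  rw [mem_squareType h4 hζ]
  rcases sg_cases h4 (ex_ne_zero hζ φ) with h | h <;> rw [h] <;> norm_num

end one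

section family

variable {ι : Type*} [Fintype ι] {p : ι → ℕ} [hp : ∀ i, Fact (p i).Prime]

theorem exists_sigma_family (hinj : Function.Injective p) (b : ∀ i, ZMod (p i))
    (hb : ∀ i, b i ≠ 0) :
    ∃ (σ : ℂ ≃+* ℂ) (t : ℕ), (∀ i, (t : ZMod (p i)) = b i) ∧
      ∀ i, σ (unity (p i) 1) = (unity (p i) 1) ^ t := by
  classical
  have hcop : Pairwise (Function.onFun Nat.Coprime p) := by
    intro i j hij
    exact (Nat.coprime_primes (hp i).out (hp j).out).2 (fun h => hij (hinj h))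
  obtain ⟨t, ht⟩ := Nat.chineseRemainderOfFinset (fun i => (b i).val) p univ
    (fun i _ => (hp i).out.ne_zero) (fun i _ j _ hij => hcop hij)
  have ht' : ∀ i, (t : ZMod (p i)) = b i := by
    intro i
    have h1 := ht i (mem_univ i)
    rw [← ZMod.natCast_eq_natCast_iff] at h1
    rw [h1, ZMod.natCast_zmod_val]
  have hn0 : (∏ i, p i) ≠ 0 := Finset.prod_ne_zero_iff.2 (fun i _ => (hp i).out.ne_zero)
  have hcopt : t.Coprime (∏ i, p i) := by
    refine Nat.Coprime.prod_right fun i _ => ?_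
    rw [Nat.coprime_comm, (hp i).out.coprime_iff_not_dvd]
    intro hd
    apply hb i
    rw [← ht' i, ZMod.natCast_eq_zero_iff]
    exact hd
  obtain ⟨σ, hσ⟩ := Pool.Agent.R677.FV.exists_sigma (∏ i, p i) hn0 t hcopt
  refine ⟨σ, t, ht', fun i => hσ _ ?_⟩
  obtain ⟨q, hq⟩ := Finset.dvd_prod_of_mem p (mem_univ i)
  rw [hq, pow_mul, (unity_prim (hp i).out.ne_zero).pow_eq_one, one_pow]

end family

end Run7.h439.LT
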