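import Pool.Agent.Run7.h439.LT.Emb

/-!
# The families of the CM types `a + 1 / a = □`
-/

set_option autoImplicit false
set_option linter.unusedSectionVars false

namespace Run7.h439.LT

open Finset NumberField Pool.Agent.H204R3.CM Pool.Agent.W546.GHC Pool.Agent.TH170.LV

variable {ι : Type} [Fintype ι] {E : ι → Type} [∀ i, Field (E i)] [∀ i, NumberField (E i)]
  {p : ι → ℕ} [hp : ∀ i, Fact (p i).Prime] [∀ i, IsCyclotomicExtension {p i} ℚ (E i)]
  {ζ : ∀ i, E i}

/-- The exponent of a letter. -/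
noncomputable def zz (hζ : ∀ i, IsPrimitiveRoot (ζ i) (p i)) (a : Σ i, (E i →+* ℂ)) :
    Σ i, ZMod (p i) := ⟨a.1, ex (hζ a.1) a.2⟩

open Classical in
/-- The number of the letters of a word with exponent `x` -/
noncomputable def cc (hζ : ∀ i, IsPrimitiveRoot (ζ i) (p i)) {n : ℕ}
    (a : Fin n → Σ i, (E i →+* ℂ)) (i : ι) (x : ZMod (p i)) : ℕ :=
  (univ.filter (fun l => zz hζ (a l) = ⟨i, x⟩)).card

theorem zz_injective (hζ : ∀ i, IsPrimitiveRoot (ζ i) (p i)) {a a' : Σ i, (E i →+* ℂ)}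
    (h : zz hζ a = zz hζ a') : a = a' := by
  obtain ⟨i, φ⟩ := a
  obtain ⟨i', φ'⟩ := a'
  simp only [zz, Sigma.mk.injEq] at h
  obtain ⟨rfl, h⟩ := h
  rw [ex_injective (hζ i) (eq_of_heq h)]

open Classical in
/-- the sum over a word of a function of the exponents -/
theorem sum_word (hζ : ∀ i, IsPrimitiveRoot (ζ i) (p i)) {n : ℕ}
    (a : Fin n → Σ i, (E i →+* ℂ)) (F : (Σ i, ZMod (p i)) → ℤ) :
    ∑ l, F (zz hζ (a l)) = ∑ i, ∑ x : ZMod (p i), (cc hζ a i x : ℤ) * F ⟨i, x⟩ := by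
  rw [← Fintype.sum_sigma' (fun i (x : ZMod (p i)) => (cc hζ a i x : ℤ) * F ⟨i, x⟩)]
  rw [← Finset.sum_fiberwise (s := univ) (g := fun l => zz hζ (a l))
    (f := fun l => F (zz hζ (a l)))]
  refine Finset.sum_congr rfl fun y _ => ?_
  rw [Finset.sum_congr rfl (g := fun _ => F y)]
  · rw [Finset.sum_const, nsmul_eq_mul]
    rfl
  · intro l hl
    rw [Finset.mem_filter] at hl
    rw [hl.2]

open Classical in
/-- the sum over a word after the action of an automorphism -/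
theorem sum_sigma (h4 : ∀ i, p i % 4 = 3) (hζ : ∀ i, IsPrimitiveRoot (ζ i) (p i)) {n : ℕ}
    (a : Fin n → Σ i, (E i →+* ℂ)) (b : ∀ i, ZMod (p i)) (σ : ℂ ≃+* ℂ) (t : ℕ)
    (ht : ∀ i, (t : ZMod (p i)) = b i) (hσ : ∀ i, σ (unity (p i) 1) = (unity (p i) 1) ^ t) :
    (∑ l, if (σ : ℂ →+* ℂ).comp (a l).2 ∈ squareType (p (a l).1) (ζ (a l).1) then (1 : ℤ) else -1) =
      ∑ i, ∑ x : ZMod (p i), (cc hζ a i x : ℤ) * sg (b i * x) := by
  rw [← sum_word hζ a (fun y => sg (b y.1 * y.2))]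
  refine Finset.sum_congr rfl fun l _ => ?_
  rw [sign_eq (h4 _) (hζ _), ex_comp (hζ _) _ σ t (hσ _), ht]
  rfl

theorem cc_zero (hζ : ∀ i, IsPrimitiveRoot (ζ i) (p i)) {n : ℕ} (a : Fin n → Σ i, (E i →+* ℂ))
    (i : ι) : cc hζ a i 0 = 0 := by
  classical
  rw [cc, Finset.card_eq_zero, Finset.filter_eq_empty_iff]
  intro l _ h
  simp only [zz] at h
  have h1 : ∀ (y : Σ i, ZMod (p i)) (_ : y = ⟨i, 0⟩), y.2 = 0 := by
    rintro _ rfl
    rfl
  exact ex_ne_zero (hζ (a l).1) (a l).2 (h1 _ h)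

theorem cc_neg (hζ : ∀ i, IsPrimitiveRoot (ζ i) (p i)) {n : ℕ} (a : Fin n → Σ i, (E i →+* ℂ))
    (ha : ∀ l l', a l ≠ (⟨(a l').1, ComplexEmbedding.conjugate (a l').2⟩ : Σ i, (E i →+* ℂ)))
    (i : ι) (x : ZMod (p i)) (hx : 0 < cc hζ a i x) : cc hζ a i (-x) = 0 := by
  classical
  rw [cc, Finset.card_pos] at hx
  obtain ⟨l', hl'⟩ := hx
  rw [Finset.mem_filter] at hl'
  rw [cc, Finset.card_eq_zero, Finset.filter_eq_empty_iff]
  intro l _ h
  apply ha l l'
  apply zz_injective hζ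
  rw [h]
  have h1 : ∀ (y : Σ i, (E i →+* ℂ)), zz hζ y = ⟨i, x⟩ →
      (⟨i, -x⟩ : Σ i, ZMod (p i)) = zz hζ ⟨y.1, ComplexEmbedding.conjugate y.2⟩ := by
    rintro ⟨j, φ⟩ hy
    simp only [zz, Sigma.mk.injEq] at hy ⊢
    obtain ⟨rfl, hy⟩ := hy
    refine ⟨rfl, heq_of_eq ?_⟩
    rw [ex_conj, eq_of_heq hy]
  exact h1 _ hl'.2

theorem sum_cc (hζ : ∀ i, IsPrimitiveRoot (ζ i) (p i)) {n : ℕ} (a : Fin n → Σ i, (E i →+* ℂ)) :
    ∑ i, ∑ x : ZMod (p i), cc hζ a i x = n := by
  have h1 := sum_word hζ a (fun _ => 1)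
  simp only [mul_one, Finset.sum_const, Finset.card_univ, Fintype.card_fin, nsmul_eq_mul] at h1
  exact_mod_cast h1.symm

theorem neg_ne {q : ℕ} [Fact q.Prime] (h4 : q % 4 = 3) {x : ZMod q} (hx : x ≠ 0) : x ≠ -x := by
  intro h
  have h8 : (2 : ZMod q) * x = 0 := by linear_combination h
  rcases mul_eq_zero.1 h8 with h9 | h9
  · have h1 : ((2 : ℕ) : ZMod q) = 0 := by exact_mod_cast h9
    rw [ZMod.natCast_eq_zero_iff] at h1
    have := Nat.le_of_dvd (by norm_num) h1
    omega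
  · exact hx h9

/-- Nondegeneracy: no word without conjugate letters is balanced. -/
theorem levelFree_zero (h4 : ∀ i, p i % 4 = 3) (hinj : Function.Injective p)
    (hζ : ∀ i, IsPrimitiveRoot (ζ i) (p i)) (k : ℕ) :
    LevelFree (fun i => squareType (p i) (ζ i)) k 0 := by
  classical
  intro n _ B hB hBn a ha
  obtain rfl : B = 0 := Nat.le_zero.1 hB
  by_contra hcon
  push Not at hcon
  -- all sums vanish
  have hall : ∀ b : ∀ i, ZMod (p i), (∀ i, b i ≠ 0) →
      ∑ i, ∑ x : ZMod (p i), (cc hζ a i x : ℤ) * sg (b i * x) = 0 := by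
    intro b hb
    obtain ⟨σ, t, ht, hσ⟩ := exists_sigma_family hinj b hb
    have h1 := hcon σ
    rw [sum_sigma h4 hζ a b σ t ht hσ] at h1
    exact abs_eq_zero.1 (le_antisymm (by exact_mod_cast h1) (abs_nonneg _))
  -- a letter
  let l₀ : Fin n := ⟨0, by omega⟩
  set i₀ := (a l₀).1 with hi₀
  set x₀ : ZMod (p i₀) := ex (hζ _) (a l₀).2 with hx₀
  have hx₀0 : x₀ ≠ 0 := ex_ne_zero _ _
  have hpos : 0 < cc hζ a i₀ x₀ := by
    rw [cc, Finset.card_pos]
    exact ⟨l₀, by rw [Finset.mem_filter]; exact ⟨mem_univ _, rfl⟩⟩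
  have hone : ∀ s : ZMod (p i₀), s ≠ 0 →
      ∑ x : ZMod (p i₀), (cc hζ a i₀ x : ℤ) * sg (s * x) = 0 := by
    intro s hs
    obtain ⟨u, hu0, hu1⟩ : ∃ u : ZMod (p i₀) → ∀ i, ZMod (p i), (∀ s, u s i₀ = s) ∧
        ∀ s i, i ≠ i₀ → u s i = 1 :=
      ⟨fun s => Function.update (fun _ => 1) i₀ s, fun s => Function.update_self _ _ _,
        fun s i hi => Function.update_of_ne hi _ _⟩
    have hu : ∀ s, s ≠ 0 → ∀ i, u s i ≠ 0 := by
      intro s hs i
      by_cases h : i = i₀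
      · subst h
        rwa [hu0]
      · rw [hu1 s i h]
        exact one_ne_zero
    have h1 := hall (u s) (hu s hs)
    have h2 := hall (u (-s)) (hu (-s) (neg_ne_zero.2 hs))
    rw [← Finset.add_sum_erase _ _ (mem_univ i₀)] at h1 h2
    rw [hu0] at h1 h2
    have h3 : ∑ i ∈ univ.erase i₀, ∑ x : ZMod (p i), (cc hζ a i x : ℤ) * sg (u s i * x) =
        ∑ i ∈ univ.erase i₀, ∑ x : ZMod (p i), (cc hζ a i x : ℤ) * sg (u (-s) i * x) := by
      refine Finset.sum_congr rfl fun i hi => ?_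
      rw [hu1 _ i (ne_of_mem_erase hi), hu1 _ i (ne_of_mem_erase hi)]
    have h5 : ∑ x : ZMod (p i₀), (cc hζ a i₀ x : ℤ) * sg (-s * x) =
        - ∑ x : ZMod (p i₀), (cc hζ a i₀ x : ℤ) * sg (s * x) := by
      rw [← Finset.sum_neg_distrib]
      refine Finset.sum_congr rfl fun x _ => ?_
      rw [neg_mul, sg_neg (h4 _)]
      ring
    rw [← h3, h5] at h2
    linarith
  have hd := indep (h4 i₀) (fun x => (cc hζ a i₀ x : ℤ) - cc hζ a i₀ (-x)) (by
      intro x
      simp only [neg_neg]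
      ring) (by
      intro s hs
      simp only [sub_mul]
      rw [Finset.sum_sub_distrib, hone s hs, zero_sub, neg_eq_zero,
        ← Equiv.sum_comp (Equiv.neg _)]
      simp only [Equiv.neg_apply, neg_neg, mul_neg]
      rw [← neg_eq_zero, ← hone s hs, ← Finset.sum_neg_distrib]
      refine Finset.sum_congr rfl fun x _ => ?_
      rw [sg_neg (h4 _)]
      ring) x₀
  rw [cc_neg hζ a ha i₀ x₀ hpos] at hd
  push_cast at hd
  omega

/-- Level freeness up to half of the logarithm. -/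
theorem levelFree (h4 : ∀ i, p i % 4 = 3) (hinj : Function.Injective p)
    (hζ : ∀ i, IsPrimitiveRoot (ζ i) (p i)) {k L : ℕ}
    (hpL : ∀ i, 4 ^ L * (3 * L + 7) ^ 2 * (k + 1) ^ 2 ≤ p i) :
    LevelFree (fun i => squareType (p i) (ζ i)) k L := by
  classical
  intro n hn B hB hBn a ha
  -- the set of the letters
  set Y : Finset (Σ i, ZMod (p i)) := univ.image (fun l => zz hζ (a l)) with hY
  have hYpos : ∀ y : Σ i, ZMod (p i), y ∈ Y ↔ 0 < cc hζ a y.1 y.2 := by
    intro y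
    rw [hY, Finset.mem_image, cc, Finset.card_pos]
    constructor
    · rintro ⟨l, _, hl⟩
      exact ⟨l, by rw [Finset.mem_filter]; exact ⟨mem_univ _, hl⟩⟩
    · rintro ⟨l, hl⟩
      rw [Finset.mem_filter] at hl
      exact ⟨l, mem_univ _, hl.2⟩
  obtain ⟨J, hJY, hJcard, hJsum⟩ : ∃ J ⊆ Y, J.card ≤ B + 1 ∧
      B + 1 ≤ ∑ y ∈ J, cc hζ a y.1 y.2 := by
    by_cases hYc : Y.card ≤ B + 1
    · refine ⟨Y, subset_refl _, hYc, ?_⟩
      have h1 : ∑ y ∈ Y, cc hζ a y.1 y.2 = n := by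
        refine Eq.trans ?_ (sum_cc hζ a)
        rw [← Fintype.sum_sigma' (fun i (x : ZMod (p i)) => cc hζ a i x)]
        refine Finset.sum_subset (subset_univ _) ?_
        intro y _ hy
        rw [hYpos] at hy
        omega
      omega
    · obtain ⟨J, hJY, hJ⟩ := Finset.exists_subset_card_eq (s := Y) (n := B + 1) (by omega)
      refine ⟨J, hJY, hJ.le, ?_⟩
      calc B + 1 = ∑ _y ∈ J, 1 := by rw [Finset.sum_const, hJ, smul_eq_mul, mul_one]
        _ ≤ _ := Finset.sum_le_sum fun y hy => (hYpos y).1 (hJY hy)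
  have hb : ∀ i, ∃ b : ZMod (p i), b ≠ 0 ∧
      ((∑ x ∈ univ.filter (fun x => (⟨i, x⟩ : Σ i, ZMod (p i)) ∈ J), cc hζ a i x : ℕ) : ℤ) ≤
        ∑ x, (cc hζ a i x : ℤ) * sg (b * x) := by
    intro i
    refine level (h4 i) (cc hζ a i) (cc_zero hζ a i) (cc_neg hζ a ha i) _ ?_ (L := L) (k := k)
      ?_ ?_ (hpL i)
    · intro x hx
      rw [Finset.mem_filter] at hx
      exact (hYpos ⟨i, x⟩).1 (hJY hx.2)
    · refine le_trans ?_ (hJcard.trans (Nat.succ_le_succ hB))
      refine Finset.card_le_card_of_injOn (fun x => (⟨i, x⟩ : Σ i, ZMod (p i))) ?_ ?_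
      · intro x hx
        rw [Finset.mem_coe, Finset.mem_filter] at hx
        exact hx.2
      · intro x _ x' _ h
        simpa using h
    · refine le_trans ?_ ((sum_cc hζ a).le.trans hn)
      exact Finset.single_le_sum (f := fun i => ∑ x : ZMod (p i), cc hζ a i x)
        (fun _ _ => Nat.zero_le _) (mem_univ i)
  choose b hb0 hb1 using hb
  obtain ⟨σ, t, ht, hσ⟩ := exists_sigma_family hinj b hb0
  refine ⟨σ, lt_of_lt_of_le ?_ (le_abs_self _)⟩
  rw [sum_sigma h4 hζ a b σ t ht hσ]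
  have h1 : (∑ y ∈ J, cc hζ a y.1 y.2) =
      ∑ i, ∑ x ∈ univ.filter (fun x => (⟨i, x⟩ : Σ i, ZMod (p i)) ∈ J), cc hζ a i x := by
    have h2 : ∀ i, ∑ x ∈ univ.filter (fun x => (⟨i, x⟩ : Σ i, ZMod (p i)) ∈ J), cc hζ a i x =
        ∑ x, if (⟨i, x⟩ : Σ i, ZMod (p i)) ∈ J then cc hζ a i x else 0 :=
      fun i => Finset.sum_filter _ _
    rw [Finset.sum_congr rfl (fun i _ => h2 i),
      ← Fintype.sum_sigma' (fun i (x : ZMod (p i)) =>
        if (⟨i, x⟩ : Σ i, ZMod (p i)) ∈ J then cc hζ a i x else 0), ← Finset.sum_filter]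
    refine Finset.sum_congr ?_ fun _ _ => rfl
    ext y
    simp
  have h3 : ((∑ y ∈ J, cc hζ a y.1 y.2 : ℕ) : ℤ) ≤
      ∑ i, ∑ x : ZMod (p i), (cc hζ a i x : ℤ) * sg (b i * x) := by
    rw [h1]
    push_cast
    refine Finset.sum_le_sum fun i _ => ?_
    have := hb1 i
    push_cast at this
    exact this
  have h5 : ((B + 1 : ℕ) : ℤ) ≤ ((∑ y ∈ J, cc hζ a y.1 y.2 : ℕ) : ℤ) := by exact_mod_cast hJsum
  push_cast at h5 h3
  linarith

/-- The abelian varieties are simple and pairwise not isogenous. -/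
theorem separated (h4 : ∀ i, p i % 4 = 3) (hinj : Function.Injective p)
    (hζ : ∀ i, IsPrimitiveRoot (ζ i) (p i)) : Separated (fun i => squareType (p i) (ζ i)) := by
  classical
  rintro ⟨i, φ⟩ ⟨i', φ'⟩ h
  simp only at h
  have key : ∀ b : ∀ i, ZMod (p i), (∀ i, b i ≠ 0) →
      sg (b i * ex (hζ i) φ) = sg (b i' * ex (hζ i') φ') := by
    intro b hb
    obtain ⟨σ, t, ht, hσ⟩ := exists_sigma_family hinj b hb
    have h1 := h σ
    rw [mem_squareType (h4 _) (hζ _), mem_squareType (h4 _) (hζ _), ex_comp (hζ _) _ σ t (hσ _),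
      ex_comp (hζ _) _ σ t (hσ _), ht, ht] at h1
    rcases sg_cases (h4 i) (mul_ne_zero (hb i) (ex_ne_zero (hζ i) φ)) with h2 | h2 <;>
      rcases sg_cases (h4 i') (mul_ne_zero (hb i') (ex_ne_zero (hζ i') φ')) with h3 | h3 <;>
      rw [h2, h3] at h1 ⊢ <;> norm_num at h1
  by_cases hii : i = i'
  · subst hii
    have key' : ∀ s : ZMod (p i), s ≠ 0 → sg (s * ex (hζ i) φ) = sg (s * ex (hζ i) φ') := by
      intro s hs
      have h1 := key (Function.update (fun _ => 1) i s) (by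
        intro j
        by_cases h : j = i
        · subst h
          rwa [Function.update_self]
        · rw [Function.update_of_ne h]
          exact one_ne_zero)
      rwa [Function.update_self] at h1
    set x := ex (hζ i) φ with hx
    set y := ex (hζ i) φ' with hy
    have hx0 : x ≠ 0 := ex_ne_zero _ _
    have hy0 : y ≠ 0 := ex_ne_zero _ _
    have hd := indep (h4 i) (fun z => (if z = x then (1 : ℤ) else 0) - (if z = -x then 1 else 0) -
      (if z = y then 1 else 0) + (if z = -y then 1 else 0)) (by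
        intro z
        have e1 : (-z = x) ↔ (z = -x) := neg_eq_iff_eq_neg
        have e2 : (-z = y) ↔ (z = -y) := neg_eq_iff_eq_neg
        simp only [neg_inj, e1, e2]
        ring) (by
        intro s hs
        simp only [add_mul, sub_mul, ite_mul, one_mul, zero_mul]
        simp only [Finset.sum_add_distrib, Finset.sum_sub_distrib, Finset.sum_ite_eq',
          Finset.mem_univ, if_true]
        rw [mul_neg, mul_neg, sg_neg (h4 i), sg_neg (h4 i), key' s hs]
        ring) x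
    simp only [if_true, if_neg (neg_ne (h4 i) hx0)] at hd
    have hxy : x = y := by
      by_contra hne
      rw [if_neg hne] at hd
      split_ifs at hd <;> omega
    rw [ex_injective (hζ i) hxy]
  · exfalso
    have h1 := key (fun _ => 1) (fun _ => one_ne_zero)
    have h2 := key (Function.update (fun _ => 1) i (-1)) (by
        intro j
        by_cases h : j = i
        · subst h
          rw [Function.update_self]
          exact neg_ne_zero.2 one_ne_zero
        · rw [Function.update_of_ne h]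
          exact one_ne_zero)
    rw [Function.update_self, Function.update_of_ne (Ne.symm hii), neg_mul, sg_neg (h4 i)] at h2
    rcases sg_cases (h4 i) (mul_ne_zero (one_ne_zero) (ex_ne_zero (hζ i) φ)) with h3 | h3 <;>
      omega

end Run7.h439.LT
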